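import Mathlib
import Pool.Agent.Lib.MP_524519_ag.DU5.TR.Iface

/-! DU5, chapter TR, module TAY: Taylor's formula in one of the variables. -/

set_option autoImplicit false

namespace Pool.Agent.DU5.TR.H38

open MvPowerSeries

section

variable {n : ℕ} {k : Type} [Field k]

/-- The coordinates, the `i`-th one shifted by the new variable. -/
noncomputable def sh (k : Type) [Field k] {n : ℕ} (i j : Fin n) :
    MvPowerSeries (Option (Fin n)) k :=
  X (some j) + (if j = i then X none else 0)

/-- The coordinates, not shifted. -/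
noncomputable def s0 (k : Type) [Field k] {n : ℕ} (j : Fin n) :
    MvPowerSeries (Option (Fin n)) k := X (some j)

theorem sh_const (i j : Fin n) : constantCoeff (sh k i j) = 0 := by
  unfold sh
  rw [map_add, constantCoeff_X]
  split_ifs
  · rw [constantCoeff_X, add_zero]
  · rw [map_zero, add_zero]

theorem s0_const (j : Fin n) : constantCoeff (s0 k j) = 0 := by
  unfold s0
  rw [constantCoeff_X]

theorem tay_poly (i : Fin n) (p : MvPolynomial (Fin n) k) :
    (X none : MvPowerSeries (Option (Fin n)) k) ^ 2 ∣
      MvPolynomial.aeval (sh k i) p - MvPolynomial.aeval (s0 k) p -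
        X none * MvPolynomial.aeval (s0 k) (MvPolynomial.pderiv i p) := by
  induction p using MvPolynomial.induction_on with
  | C a => simp
  | add p q hp hq =>
    simp only [map_add]
    have e : MvPolynomial.aeval (sh k i) p + MvPolynomial.aeval (sh k i) q -
        (MvPolynomial.aeval (s0 k) p + MvPolynomial.aeval (s0 k) q) -
        X none * (MvPolynomial.aeval (s0 k) (MvPolynomial.pderiv i p) +
          MvPolynomial.aeval (s0 k) (MvPolynomial.pderiv i q)) =
        (MvPolynomial.aeval (sh k i) p - MvPolynomial.aeval (s0 k) p -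
          X none * MvPolynomial.aeval (s0 k) (MvPolynomial.pderiv i p)) +
        (MvPolynomial.aeval (sh k i) q - MvPolynomial.aeval (s0 k) q -
          X none * MvPolynomial.aeval (s0 k) (MvPolynomial.pderiv i q)) := by ring
    rw [e]
    exact dvd_add hp hq
  | mul_X p j hp =>
    simp only [map_mul, MvPolynomial.aeval_X, Derivation.leibniz, smul_eq_mul, map_add,
      MvPolynomial.pderiv_X]
    obtain ⟨c, hc⟩ := hp
    have hP : MvPolynomial.aeval (sh k i) p = MvPolynomial.aeval (s0 k) p +
        X none * MvPolynomial.aeval (s0 k) (MvPolynomial.pderiv i p) + X none ^ 2 * c := by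
      rw [← hc]; ring
    rw [hP]
    by_cases hji : j = i
    · subst hji
      refine ⟨c * (s0 k j + X none) + MvPolynomial.aeval (s0 k) (MvPolynomial.pderiv j p), ?_⟩
      simp only [sh, s0, if_true, Pi.single_eq_same, map_one]
      ring
    · refine ⟨c * s0 k j, ?_⟩
      simp only [sh, s0, if_neg hji, Pi.single_eq_of_ne hji, map_zero]
      ring

theorem coeff_subst_low (b : Fin n → MvPowerSeries (Option (Fin n)) k)
    (hb : ∀ j, constantCoeff (b j) = 0) (r : O k n) (N : ℕ)
    (hr : ∀ u : Fin n →₀ ℕ, u.degree < N → coeff u r = 0) (m : Option (Fin n) →₀ ℕ)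
    (hm : m.degree < N) : coeff m (MvPowerSeries.subst b r) = 0 := by
  have hs : HasSubst b := hasSubst_of_constantCoeff_zero hb
  have h1 : (N : ℕ∞) ≤ r.order := MvPowerSeries.nat_le_order hr
  have h2 := MvPowerSeries.le_order_subst hs r
  have h3 : (1 : ℕ∞) ≤ ⨅ i, MvPowerSeries.order (b i) := by
    refine le_iInf fun i => ?_
    rw [MvPowerSeries.one_le_order_iff_constCoeff_eq_zero]
    exact hb i
  have h4 : (N : ℕ∞) ≤ MvPowerSeries.order (MvPowerSeries.subst b r) := by
    calc (N : ℕ∞) ≤ r.order := h1
      _ = 1 * r.order := by rw [one_mul]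
      _ ≤ (⨅ i, MvPowerSeries.order (b i)) * r.order := mul_le_mul_left h3 _
      _ ≤ _ := h2
  refine MvPowerSeries.coeff_of_lt_order (lt_of_lt_of_le ?_ h4)
  exact_mod_cast hm

theorem tay_gen (i : Fin n) (f : O k n) :
    (X none : MvPowerSeries (Option (Fin n)) k) ^ 2 ∣
      MvPowerSeries.subst (sh k i) f - MvPowerSeries.subst (s0 k) f -
        X none * MvPowerSeries.subst (s0 k) (pderiv k i f) := by
  rw [MvPowerSeries.X_pow_dvd_iff]
  intro m hm
  set N := m.degree + 1 with hN
  set p : MvPolynomial (Fin n) k := MvPowerSeries.truncTotal (N + 1) f with hp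
  set r : O k n := f - (p : O k n) with hr
  have hf : f = (p : O k n) + r := by rw [hr]; ring
  have hrc : ∀ u : Fin n →₀ ℕ, u.degree < N + 1 → coeff u r = 0 := by
    intro u hu
    have h9 : MvPolynomial.coeff u (MvPowerSeries.truncTotal (N + 1) f) = coeff u f :=
      MvPowerSeries.coeff_truncTotal _ hu
    rw [hr, map_sub, MvPolynomial.coeff_coe, hp, h9, sub_self]
  have hrd : ∀ u : Fin n →₀ ℕ, u.degree < N → coeff u (pderiv k i r) = 0 := by
    intro u hu
    rw [MvPowerSeries.coeff_pderiv, hrc, zero_mul]
    rw [map_add]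
    simp only [Finsupp.degree_single]
    omega
  have h1 : HasSubst (sh k i) := hasSubst_of_constantCoeff_zero (sh_const i)
  have h0 : HasSubst (s0 k (n := n)) := hasSubst_of_constantCoeff_zero s0_const
  have a1 : ∀ a b : O k n, MvPowerSeries.subst (sh k i) (a + b) =
      MvPowerSeries.subst (sh k i) a + MvPowerSeries.subst (sh k i) b := by
    intro a b; rw [← coe_substAlgHom h1]; exact map_add _ _ _
  have a0 : ∀ a b : O k n, MvPowerSeries.subst (s0 k) (a + b) =
      MvPowerSeries.subst (s0 k) a + MvPowerSeries.subst (s0 k) b := by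
    intro a b; rw [← coe_substAlgHom h0]; exact map_add _ _ _
  have hpoly := (MvPowerSeries.X_pow_dvd_iff.1 (tay_poly i p)) m hm
  rw [hf, a1, a0, map_add, a0, MvPowerSeries.subst_coe, MvPowerSeries.subst_coe,
    MvPowerSeries.pderiv_coe, MvPowerSeries.subst_coe]
  have z1 : coeff m (MvPowerSeries.subst (sh k i) r) = 0 :=
    coeff_subst_low _ (sh_const i) r (N + 1) hrc m (by omega)
  have z2 : coeff m (MvPowerSeries.subst (s0 k) r) = 0 :=
    coeff_subst_low _ s0_const r (N + 1) hrc m (by omega)
  have z3 : coeff m (X none * MvPowerSeries.subst (s0 k) (pderiv k i r)) = 0 := by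
    rw [MvPowerSeries.coeff_mul]
    refine Finset.sum_eq_zero fun ab hab => ?_
    have hab := Finset.HasAntidiagonal.mem_antidiagonal.mp hab
    rw [coeff_subst_low _ s0_const (pderiv k i r) N hrd ab.2, mul_zero]
    have : ab.2.degree ≤ m.degree := by
      rw [← hab, map_add]; omega
    omega
  have e : MvPolynomial.aeval (sh k i) p + MvPowerSeries.subst (sh k i) r -
      (MvPolynomial.aeval (s0 k) p + MvPowerSeries.subst (s0 k) r) -
      X none * (MvPolynomial.aeval (s0 k) (MvPolynomial.pderiv i p) +
        MvPowerSeries.subst (s0 k) (pderiv k i r)) =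
      (MvPolynomial.aeval (sh k i) p - MvPolynomial.aeval (s0 k) p -
        X none * MvPolynomial.aeval (s0 k) (MvPolynomial.pderiv i p)) +
      (MvPowerSeries.subst (sh k i) r - MvPowerSeries.subst (s0 k) r -
        X none * MvPowerSeries.subst (s0 k) (pderiv k i r)) := by ring
  rw [e, map_add, hpoly, map_sub, map_sub, z1, z2, z3]
  simp

end

/-- TAY. Taylor's formula in one of the variables. -/
theorem tay : TayStatement := by
  intro n k A _ _ _ f x y i hx hy hxy
  obtain ⟨Q, hQ⟩ := tay_gen (k := k) i f
  set z : Option (Fin n) → PowerSeries A := fun o => o.elim (y i - x i) x with hz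
  have hzc : ∀ o, PowerSeries.constantCoeff (z o) = 0 := by
    intro o
    cases o with
    | none => simp [hz, hx, hy]
    | some j => simp [hz, hx]
  have hsz : HasSubst z := hasSubst_of_constantCoeff_zero hzc
  have h1 : HasSubst (sh k i) := hasSubst_of_constantCoeff_zero (sh_const i)
  have h0 : HasSubst (s0 k (n := n)) := hasSubst_of_constantCoeff_zero s0_const
  have X1 : ∀ o, MvPowerSeries.subst z (X o : MvPowerSeries (Option (Fin n)) k) = z o :=
    fun o => MvPowerSeries.subst_X hsz o
  have c1 : MvPowerSeries.subst z (MvPowerSeries.subst (sh k i) f) = ev y f := by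
    rw [MvPowerSeries.subst_comp_subst_apply h1 hsz]
    unfold ev
    congr 1
    funext j
    unfold sh
    rw [← coe_substAlgHom hsz, map_add, coe_substAlgHom hsz, X1]
    split_ifs with hji
    · rw [X1, hji]; simp [hz]
    · rw [← coe_substAlgHom hsz, map_zero, hxy j hji]; simp [hz]
  have c0 : ∀ g : O k n, MvPowerSeries.subst z (MvPowerSeries.subst (s0 k) g) = ev x g := by
    intro g
    rw [MvPowerSeries.subst_comp_subst_apply h0 hsz]
    unfold ev
    congr 1
    funext j
    unfold s0
    rw [X1]
    rfl
  refine ⟨MvPowerSeries.subst z Q, ?_⟩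
  have h := congrArg (MvPowerSeries.subst (R := k) z) hQ
  rw [← coe_substAlgHom hsz, map_sub, map_sub, map_mul, map_mul, map_pow,
    coe_substAlgHom hsz, c1, c0, c0, X1] at h
  have hzn : z none = y i - x i := rfl
  rw [hzn] at h
  linear_combination h

end Pool.Agent.DU5.TR.H38
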